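import Mathlib
import Pool.Agent.Run7.h757.MW.Use

/-!
# Linearly many terms in Waring's problem, all but a very small proportion of them `k`-th powers

For almost all positive `lam_1, ..., lam_u` every large integer is a sum of `2 r` positive `k`-th powers and of `u` terms
`⌊lam_i n_i ^ k⌋`, as soon as `u ≥ 4` and `2 k (1 - 1 / k) ^ r < u`. In particular `96 k` positive `k`-th powers and
`max 4 (⌊k / 10 ^ 20⌋ + 1)` such terms suffice, in total at most `100 k` terms; with `lam_i = 1` for all `i` this would be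
the bound `G(k) ≤ 100 k` of the problem.

Proof. Circle method modulo `Q ≍ N ^ k` with Davenport's diminishing ranges for the `k`-th powers (twice) and a mean value
estimate over `lam` for the exponential sums `∑ e(a ⌊lam n ^ k⌋)`: by the Fourier expansion of the integer part and the
spacing of the numbers `n ^ k`, the mean square over `lam ∈ [0, A]` is at most `N (log N) ^ C` for `|a| ≥ N ^ (1 - k)`,
and `N ^ (2 - k) (log N) ^ C / |a|` below. The sums at different coordinates of `lam` are independent, so that four of them suffice.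
The frequencies near `0` are treated by a comparison with short averages (Fejer kernel) and an elementary lower bound.
-/

open Finset MeasureTheory Filter

namespace Pool.Agent.Results.MP_570bef_nt.FewGenericTerms

/-- Every large integer is a sum of `t` positive `k`-th powers and of `u` terms `⌊lam_i n_i ^ k⌋`, `n_i ≥ 1`. -/
def Good (k t u : ℕ) (lam : Fin u → ℝ) : Prop :=
  ∀ᶠ M : ℕ in atTop, ∃ (x : Fin t → ℕ) (n : Fin u → ℕ), (∀ i, 1 ≤ x i) ∧ (∀ i, 1 ≤ n i) ∧
    ∑ i, x i ^ k + ∑ i, ⌊lam i * (n i : ℝ) ^ k⌋₊ = M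

theorem part1 (k r u : ℕ) (hk : 2 ≤ k) (hu : 4 ≤ u)
    (h : 2 * (k : ℝ) * (1 - 1 / (k : ℝ)) ^ r < u) :
    ∀ᵐ lam : Fin u → ℝ, (∀ i, 0 < lam i) → Good k (2 * r) u lam := by
  have h1 := Pool.Agent.Run7.h757.MW.genuine k r u hk hu h (fun _ => Set.univ) (1 / 2) 0
    (by norm_num) le_rfl fun _ => Pool.Agent.Run7.h757.MW.reg_univ
  filter_upwards [h1] with lam hlam hpos
  filter_upwards [hlam hpos] with M hM
  obtain ⟨x, n, hx, hn, hs⟩ := hM
  exact ⟨x, n, hx, fun i => (hn i).2, hs⟩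

theorem part2 (k m u : ℕ) (hk : 2 ≤ k) (hu : 4 ≤ u)
    (h : 2 * (k : ℝ) * Real.exp (-(m : ℝ)) < u) :
    ∀ᵐ lam : Fin u → ℝ, (∀ i, 0 < lam i) → Good k (2 * (m * k)) u lam := by
  refine part1 k (m * k) u hk hu (lt_of_le_of_lt ?_ h)
  have hk0 : (0 : ℝ) < k := by
    have : (2 : ℝ) ≤ k := by exact_mod_cast hk
    linarith
  have hk1 : (0 : ℝ) ≤ 1 - 1 / (k : ℝ) := by
    have : (2 : ℝ) ≤ k := by exact_mod_cast hk
    have h2 : 1 / (k : ℝ) ≤ 1 := by
      rw [div_le_one hk0]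
      linarith
    linarith
  have h2 : (1 - 1 / (k : ℝ)) ^ (m * k) ≤ Real.exp (-(m : ℝ)) := by
    calc (1 - 1 / (k : ℝ)) ^ (m * k) ≤ Real.exp (-(1 / (k : ℝ))) ^ (m * k) := by
          gcongr
          exact Real.one_sub_le_exp_neg _
      _ = Real.exp (-(m : ℝ)) := by
          rw [← Real.exp_nat_mul]
          congr 1
          push_cast
          field_simp
  gcongr

theorem exp48 : 2 * Real.exp (-(48 : ℝ)) ≤ 1 / 10 ^ 20 := by
  have h1 : (2.718 : ℝ) ^ 48 ≤ Real.exp 48 := by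
    calc (2.718 : ℝ) ^ 48 ≤ Real.exp 1 ^ 48 := by
          gcongr
          have := Real.exp_one_gt_d9
          linarith
      _ = Real.exp 48 := by
          rw [← Real.exp_nat_mul]
          norm_num
  have h2 : (2 * 10 ^ 20 : ℝ) ≤ (2.718 : ℝ) ^ 48 := by norm_num
  have h3 : (0 : ℝ) < Real.exp 48 := Real.exp_pos _
  rw [Real.exp_neg, ← div_eq_mul_inv, div_le_div_iff₀ h3 (by norm_num)]
  linarith

/-- **Main result.** -/
theorem result :
    (∀ k r u : ℕ, 2 ≤ k → 4 ≤ u → 2 * (k : ℝ) * (1 - 1 / (k : ℝ)) ^ r < u →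
      ∀ᵐ lam : Fin u → ℝ, (∀ i, 0 < lam i) → Good k (2 * r) u lam) ∧
    (∀ k m u : ℕ, 2 ≤ k → 4 ≤ u → 2 * (k : ℝ) * Real.exp (-(m : ℝ)) < u →
      ∀ᵐ lam : Fin u → ℝ, (∀ i, 0 < lam i) → Good k (2 * (m * k)) u lam) ∧
    (∀ k : ℕ, 2 ≤ k → 96 * k + max 4 (k / 10 ^ 20 + 1) ≤ 100 * k ∧
      ∀ᵐ lam : Fin (max 4 (k / 10 ^ 20 + 1)) → ℝ, (∀ i, 0 < lam i) →
        Good k (96 * k) (max 4 (k / 10 ^ 20 + 1)) lam) := by
  refine ⟨part1, part2, fun k hk => ⟨?_, ?_⟩⟩
  · rcases le_total 4 (k / 10 ^ 20 + 1) with h | h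
    · rw [max_eq_right h]
      omega
    · rw [max_eq_left h]
      omega
  · have h1 := part2 k 48 (max 4 (k / 10 ^ 20 + 1)) hk (le_max_left _ _) ?_
    · rw [show 2 * (48 * k) = 96 * k by ring] at h1
      exact h1
    · have h2 : (k : ℝ) < ((k / 10 ^ 20 + 1 : ℕ) : ℝ) * 10 ^ 20 := by
        have h3 : k < (k / 10 ^ 20 + 1) * 10 ^ 20 := by
          rw [mul_comm]
          exact Nat.lt_mul_div_succ k (by norm_num)
        exact_mod_cast h3
      have h3 : ((k / 10 ^ 20 + 1 : ℕ) : ℝ) ≤ ((max 4 (k / 10 ^ 20 + 1) : ℕ) : ℝ) := by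
        exact_mod_cast le_max_right _ _
      have h4 := exp48
      calc 2 * (k : ℝ) * Real.exp (-((48 : ℕ) : ℝ)) = k * (2 * Real.exp (-(48 : ℝ))) := by
            push_cast
            ring
        _ ≤ k * (1 / 10 ^ 20) := by gcongr
        _ < ((k / 10 ^ 20 + 1 : ℕ) : ℝ) := by linarith
        _ ≤ _ := h3

end Pool.Agent.Results.MP_570bef_nt.FewGenericTerms
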