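import Pool.Agent.Run7.h332.WP.Basis2

/-!
# MP_570bef_nt: at most `100 k` terms, all but a proportion `e ^ (-99)` of them exact `k`-th powers

Let `k ≥ 2`, `0 < δ ≤ 1 - 1/k`, and let `ξ n` be independent random nonnegative integers,
`ξ n ≤ n ^ (δ k)`, spread out in the sense that each value `j ≤ n ^ (δ k)` has probability at least
`c / n ^ (δ k)` (for instance uniform). So a *perturbed `k`-th power* `n ^ k + ξ n` differs from the
`k`-th power `x = n ^ k` by at most `x ^ δ`. Almost surely, for all `t` and `q` with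
`(1 - 1/k) ^ t < δ` and `k (1 - 1/k) ^ t < q`, every large integer is a sum of `t` exact `k`-th
powers and `q` perturbed ones. In particular, if `δ ≥ e ^ (-99)`, then `99 k` exact `k`-th powers and
`⌊e ^ (-99) k⌋ + 1` perturbed ones suffice (a single perturbed one if `k < e ^ 99`), at most `100 k`
terms together; if `δ ≥ e ^ (-3)` then `3 k` exact ones and `⌊e ^ (-3) k⌋ + 1` perturbed ones
suffice, at most `4 k` terms together.

The number of perturbed terms does not depend on the size `x ^ δ` of the perturbations. (The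
theorem `PerturbedPowers` of helper274 for the problem MP_45c923_nt needs `δ k` perturbed terms; the
proof is a variant of his: the sums of `t` exact `k`-th powers have gaps `≪ N ^ ((1 - 1/k) ^ t)` up
to `N`, and each perturbed term divides the size of the gaps by `N ^ (1/k - ε)`.)
-/

open MeasureTheory ProbabilityTheory Filter

namespace Pool.Agent.Results.MP_570bef_nt.OnePerturbedPower

open Pool.Agent.Run7.h274.WarCore Pool.Agent.Run7.h274.WarOne Pool.Agent.Run7.h274.WarAsym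
  Pool.Agent.Run7.h274.WarGreedy Run7.h332.WP

/-- Every large integer is a sum of `t` exact `k`-th powers and of `q` numbers `n ^ k + x n`. -/
def Good (k t q : ℕ) (x : ℕ → ℕ) : Prop :=
  ∃ N₀ : ℕ, ∀ m : ℕ, N₀ ≤ m → ∃ (a : Fin t → ℕ) (b : Fin q → ℕ),
    m = ∑ i, (a i) ^ k + ∑ i, ((b i) ^ k + x (b i))

theorem general {Ω : Type*} [MeasurableSpace Ω] (P : Measure Ω) [IsProbabilityMeasure P]
    (k : ℕ) (hk : 2 ≤ k) (δ : ℝ) (hδ0 : 0 < δ) (hδ1 : δ ≤ 1 - 1 / (k : ℝ)) (c : ℝ) (hc : 0 < c)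
    (ξ : ℕ → Ω → ℕ) (hm : ∀ n, Measurable (ξ n)) (hind : iIndepFun ξ P)
    (hle : ∀ n ω, (ξ n ω : ℝ) ≤ (n : ℝ) ^ (δ * k))
    (hdens : ∀ n j : ℕ, 1 ≤ n → (j : ℝ) ≤ (n : ℝ) ^ (δ * k) →
      c / (n : ℝ) ^ (δ * k) ≤ P.real {ω | ξ n ω = j}) :
    ∀ᵐ ω ∂P, ∀ t q : ℕ, (1 - 1 / (k : ℝ)) ^ t < δ → k * (1 - 1 / (k : ℝ)) ^ t < q →
      Good k t q (fun n => ξ n ω) ∧ Good k 0 (t + q) (fun n => ξ n ω) := by
  have hkR : (2 : ℝ) ≤ k := by exact_mod_cast hk
  have hkpos : (0 : ℝ) < k := by linarith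
  have hr0 : (0 : ℝ) ≤ 1 - 1 / (k : ℝ) := by
    rw [sub_nonneg, div_le_one hkpos]
    linarith
  have hδk : δ * k ≤ k - 1 := by
    have h1 : δ * k ≤ (1 - 1 / (k : ℝ)) * k := mul_le_mul_of_nonneg_right hδ1 hkpos.le
    have h2 : (1 - 1 / (k : ℝ)) * k = k - 1 := by field_simp
    linarith
  have hδkpos : 0 < δ * k := by positivity
  have hξ0 : ∀ ω, ξ 0 ω = 0 := by
    intro ω
    have h := hle 0 ω
    rw [Nat.cast_zero, Real.zero_rpow (ne_of_gt hδkpos)] at h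
    have : ξ 0 ω ≤ 0 := by exact_mod_cast h
    omega
  have hf0 : ∀ ω, 0 ^ k + ξ 0 ω = 0 := by
    intro ω
    rw [hξ0, zero_pow (by omega)]
  have hfup : ∀ ω n, n ^ k + ξ n ω ≤ (n + 1) ^ k := by
    intro ω n
    rcases Nat.eq_zero_or_pos n with rfl | hn
    · rw [hf0]
      exact Nat.zero_le _
    · refine le_trans (Nat.add_le_add_left ?_ _) (pow_gap n k (by omega))
      have h1 : (n : ℝ) ^ (δ * k) ≤ ((n ^ (k - 1) : ℕ) : ℝ) := by
        push_cast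
        rw [← Real.rpow_natCast]
        refine Real.rpow_le_rpow_of_exponent_le (by exact_mod_cast hn) ?_
        rw [Nat.cast_sub (by omega), Nat.cast_one]
        exact hδk
      exact_mod_cast le_trans (hle n ω) h1
  have hdens' : ∀ n j : ℕ, 1 ≤ n → (j : ℝ) ≤ (n : ℝ) ^ (δ * k) →
      c / (n : ℝ) ^ (δ * k) ≤ P.real (ξ n ⁻¹' {j}) := hdens
  rw [ae_all_iff]
  intro t
  rw [ae_all_iff]
  intro q
  by_cases ht : (1 - 1 / (k : ℝ)) ^ t < δ
  swap
  · exact Filter.Eventually.of_forall fun ω h => absurd h ht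
  by_cases hq : k * (1 - 1 / (k : ℝ)) ^ t < q
  swap
  · exact Filter.Eventually.of_forall fun ω _ h => absurd h hq
  have hκ0 : (0 : ℝ) ≤ (1 - 1 / (k : ℝ)) ^ t := pow_nonneg hr0 t
  have hq' : (1 - 1 / (k : ℝ)) ^ t * k < q := by rw [mul_comm]; exact hq
  obtain ⟨C, hC, hg⟩ := greedy k hk 1 le_rfl t
  obtain ⟨C', hC', hg'⟩ := greedy k hk (q + 1) (by omega) t
  have e1 := basis2 (P := P) ξ hm hind k hk δ hδ0 hδk c hc hdens' ((1 - 1 / (k : ℝ)) ^ t) hκ0 ht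
    q hq' C (fun _ _ => {z | ∃ a : Fin t → ℕ, z = ∑ i, (a i) ^ k}) (fun _ _ _ _ => rfl)
    (by
      intro N ω y hy
      obtain ⟨a, _, h2, h3⟩ := hg (fun n => n ^ k) (zero_pow (by omega))
        (fun n => ⟨le_rfl, Nat.pow_le_pow_left (by omega) k⟩) y
      refine ⟨∑ i, (a i) ^ k, ⟨a, rfl⟩, h2, le_trans h3 ?_⟩
      refine mul_le_mul_of_nonneg_left (Real.rpow_le_rpow (Nat.cast_nonneg y) ?_ hκ0) hC.le
      exact_mod_cast hy)
  have e2 := basis2 (P := P) ξ hm hind k hk δ hδ0 hδk c hc hdens' ((1 - 1 / (k : ℝ)) ^ t) hκ0 ht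
    q hq' C' (fun N v => {z | ∃ a : Fin t → ℕ, (∀ i, a i % (q + 1) = 0 ∧ a i ≤ N) ∧
      z = ∑ i, ((a i) ^ k + v (a i))})
    (by
      intro N v v' h
      ext z
      constructor
      · rintro ⟨a, ha, rfl⟩
        refine ⟨a, ha, Finset.sum_congr rfl fun i _ => ?_⟩
        rw [h (a i) (ha i).2 (ha i).1]
      · rintro ⟨a, ha, rfl⟩
        refine ⟨a, ha, Finset.sum_congr rfl fun i _ => ?_⟩
        rw [h (a i) (ha i).2 (ha i).1])
    (by
      intro N ω y hy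
      obtain ⟨a, h1, h2, h3⟩ := hg' (fun n => n ^ k + ξ n ω) (hf0 ω)
        (fun n => ⟨Nat.le_add_right _ _, hfup ω n⟩) y
      refine ⟨∑ i, ((a i) ^ k + ξ (a i) ω), ⟨a, fun i => ⟨(h1 i).1, le_trans (h1 i).2 hy⟩, rfl⟩,
        h2, le_trans h3 ?_⟩
      refine mul_le_mul_of_nonneg_left (Real.rpow_le_rpow (Nat.cast_nonneg y) ?_ hκ0) hC'.le
      exact_mod_cast hy)
  filter_upwards [e1, e2] with ω h1 h2 _ _
  obtain ⟨N₁, hN₁⟩ := eventually_atTop.mp h1
  obtain ⟨N₂, hN₂⟩ := eventually_atTop.mp h2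
  refine ⟨⟨N₁, fun m hm => ?_⟩, ⟨N₂, fun m hm => ?_⟩⟩
  · obtain ⟨z, ⟨a, rfl⟩, b, hb⟩ := hN₁ m hm
    exact ⟨a, b, hb⟩
  · obtain ⟨z, ⟨a, _, rfl⟩, b, hb⟩ := hN₂ m hm
    refine ⟨Fin.elim0, Fin.append a b, ?_⟩
    rw [Fin.sum_univ_add]
    simp only [Fin.append_left, Fin.append_right, Finset.univ_eq_empty, Finset.sum_empty, zero_add]
    exact hb

/-- `(1 - 1/k) ^ (j k) < e ^ (-j)`. -/
theorem pow_lt (k j : ℕ) (hk : 2 ≤ k) (hj : 1 ≤ j) :
    (1 - 1 / (k : ℝ)) ^ (j * k) < Real.exp (-(j : ℝ)) := by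
  have hkR : (2 : ℝ) ≤ k := by exact_mod_cast hk
  have hkpos : (0 : ℝ) < k := by linarith
  have hr0 : (0 : ℝ) ≤ 1 - 1 / (k : ℝ) := by
    rw [sub_nonneg, div_le_one hkpos]
    linarith
  have h1 : 1 - 1 / (k : ℝ) < Real.exp (-(1 / (k : ℝ))) := by
    have := Real.add_one_lt_exp (show -(1 / (k : ℝ)) ≠ 0 by
      rw [neg_ne_zero]; positivity)
    linarith
  have hjk : j * k ≠ 0 := Nat.mul_ne_zero (by omega) (by omega)
  have h2 : (1 - 1 / (k : ℝ)) ^ (j * k) < Real.exp (-(1 / (k : ℝ))) ^ (j * k) :=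
    pow_lt_pow_left₀ h1 hr0 hjk
  have h3 : Real.exp (-(1 / (k : ℝ))) ^ (j * k) = Real.exp (-(j : ℝ)) := by
    rw [← Real.exp_nat_mul]
    congr 1
    push_cast
    field_simp
  rwa [h3] at h2

/-- **Main result.** Let `k ≥ 2`, `0 < δ ≤ 1 - 1/k`, `c > 0`, and let `ξ n` be independent random
nonnegative integers with `ξ n ≤ n ^ (δ k)` such that each integer `j ≤ n ^ (δ k)` is the value of
`ξ n` with probability at least `c / n ^ (δ k)`. Almost surely: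

(1) for all `t`, `q` with `(1 - 1/k) ^ t < δ` and `k (1 - 1/k) ^ t < q` every large integer is a sum of
`t` exact `k`-th powers and `q` perturbed ones `n ^ k + ξ n`, and also of `t + q` perturbed ones;

(2) if `j ≥ 1` and `e ^ (-j) ≤ δ` then `j k` exact `k`-th powers and `⌊e ^ (-j) k⌋ + 1 ≤ k`
perturbed ones suffice for every large integer, and so do `(j + 1) k` perturbed ones;

(3) if `e ^ (-99) ≤ δ` then `99 k` exact `k`-th powers and `⌊e ^ (-99) k⌋ + 1` perturbed ones suffice,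
and so do `100 k` perturbed ones. -/
theorem result {Ω : Type*} [MeasurableSpace Ω] (P : Measure Ω) [IsProbabilityMeasure P]
    (k : ℕ) (hk : 2 ≤ k) (δ : ℝ) (hδ0 : 0 < δ) (hδ1 : δ ≤ 1 - 1 / (k : ℝ)) (c : ℝ) (hc : 0 < c)
    (ξ : ℕ → Ω → ℕ) (hm : ∀ n, Measurable (ξ n)) (hind : iIndepFun ξ P)
    (hle : ∀ n ω, (ξ n ω : ℝ) ≤ (n : ℝ) ^ (δ * k))
    (hdens : ∀ n j : ℕ, 1 ≤ n → (j : ℝ) ≤ (n : ℝ) ^ (δ * k) →
      c / (n : ℝ) ^ (δ * k) ≤ P.real {ω | ξ n ω = j}) :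
    ∀ᵐ ω ∂P,
      (∀ t q : ℕ, (1 - 1 / (k : ℝ)) ^ t < δ → k * (1 - 1 / (k : ℝ)) ^ t < q →
        Good k t q (fun n => ξ n ω) ∧ Good k 0 (t + q) (fun n => ξ n ω)) ∧
      (∀ j : ℕ, 1 ≤ j → Real.exp (-(j : ℝ)) ≤ δ →
        ⌊Real.exp (-(j : ℝ)) * k⌋₊ + 1 ≤ k ∧
        Good k (j * k) (⌊Real.exp (-(j : ℝ)) * k⌋₊ + 1) (fun n => ξ n ω) ∧
        Good k 0 ((j + 1) * k) (fun n => ξ n ω)) ∧
      (Real.exp (-99) ≤ δ →
        Good k (99 * k) (⌊Real.exp (-99) * k⌋₊ + 1) (fun n => ξ n ω) ∧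
        Good k 0 (100 * k) (fun n => ξ n ω)) := by
  have hkR : (2 : ℝ) ≤ k := by exact_mod_cast hk
  have hkpos : (0 : ℝ) < k := by linarith
  filter_upwards [general P k hk δ hδ0 hδ1 c hc ξ hm hind hle hdens] with ω hω
  have key : ∀ j : ℕ, 1 ≤ j → Real.exp (-(j : ℝ)) ≤ δ →
        ⌊Real.exp (-(j : ℝ)) * k⌋₊ + 1 ≤ k ∧
        Good k (j * k) (⌊Real.exp (-(j : ℝ)) * k⌋₊ + 1) (fun n => ξ n ω) ∧
        Good k 0 ((j + 1) * k) (fun n => ξ n ω) := by
    intro j hj hjδ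
    have h1 := pow_lt k j hk hj
    have h2 : k * (1 - 1 / (k : ℝ)) ^ (j * k) < k * Real.exp (-(j : ℝ)) :=
      mul_lt_mul_of_pos_left h1 hkpos
    have hjR : (1 : ℝ) ≤ j := by exact_mod_cast hj
    have hhalf : Real.exp (-(j : ℝ)) ≤ 1 / 2 := by
      have h3 : Real.exp (-(j : ℝ)) ≤ Real.exp (-1) := Real.exp_le_exp.2 (by linarith)
      have h4 : Real.exp (-1) ≤ 1 / 2 := by
        rw [Real.exp_neg, inv_eq_one_div]
        apply one_div_le_one_div_of_le (by norm_num)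
        have := Real.add_one_le_exp (1 : ℝ)
        linarith
      linarith
    refine ⟨?_, ?_, ?_⟩
    · have h3 : Real.exp (-(j : ℝ)) * k < ((k - 1 : ℕ) : ℝ) + 1 := by
        rw [Nat.cast_sub (by omega), Nat.cast_one]
        nlinarith
      have h4 : ⌊Real.exp (-(j : ℝ)) * k⌋₊ < k - 1 + 1 := by
        rw [Nat.floor_lt (by positivity)]
        push_cast
        exact h3
      have h5 : Real.exp (-(j : ℝ)) * k ≤ k / 2 := by nlinarith
      have h6 : ⌊Real.exp (-(j : ℝ)) * k⌋₊ ≤ ⌊(k : ℝ) / 2⌋₊ := Nat.floor_mono h5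
      have h7 : ⌊(k : ℝ) / 2⌋₊ = k / 2 := by
        have := Nat.floor_div_natCast (k : ℝ) 2
        rw [Nat.floor_natCast] at this
        exact_mod_cast this
      omega
    · refine (hω (j * k) _ (lt_of_lt_of_le h1 hjδ) ?_).1
      refine lt_of_lt_of_le h2 ?_
      rw [mul_comm]
      push_cast
      exact (Nat.lt_floor_add_one _).le
    · have h3 := (hω (j * k) k (lt_of_lt_of_le h1 hjδ) (by
        refine lt_of_lt_of_le h2 ?_
        nlinarith)).2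
      have h4 : j * k + k = (j + 1) * k := by ring
      rwa [h4] at h3
  refine ⟨hω, key, fun h => ?_⟩
  have h99 := key 99 (by norm_num) (by push_cast; exact h)
  push_cast at h99
  exact ⟨h99.2.1, h99.2.2⟩

end Pool.Agent.Results.MP_570bef_nt.OnePerturbedPower
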